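import Pool.Agent.Lib.MP_e1f7e2_al.FA.Iface2
import Pool.Agent.Lib.MP_e1f7e2_al.FA.H47.Gr

set_option autoImplicit false

/-!
Project FA (MP_e1f7e2_al): module PBA.
-/

namespace Pool.Agent.Lib.MP_e1f7e2_al.FA.H97

open H47.Gr

section words

theorem sum_map_le {n : ℕ} (w : Fin n → ℝ) (s : ℝ) (h : ∀ i, w i ≤ s) (l : List (Fin n)) :
    (l.map w).sum ≤ l.length * s := by
  induction l with
  | nil => simp
  | cons a l ih =>
    rw [List.map_cons, List.sum_cons, List.length_cons]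
    push_cast
    linarith [h a]

theorem le_sum_map {n : ℕ} (w : Fin n → ℝ) (s : ℝ) (h : ∀ i, s ≤ w i) (l : List (Fin n)) :
    l.length * s ≤ (l.map w).sum := by
  induction l with
  | nil => simp
  | cons a l ih =>
    rw [List.map_cons, List.sum_cons, List.length_cons]
    push_cast
    linarith [h a]

variable {w : Fin 3 → ℝ} (hw : Gen w)

include hw

theorem w4_bd (i : Fin 4) : 0 ≤ w4 w i ∧ w4 w i ≤ sg w := by
  have h0 := hw.pos 0
  have h1 := hw.pos 1
  have h2 := hw.pos 2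
  unfold w4 sg
  refine ⟨?_, ?_⟩
  · fin_cases i
    · exact h0.le
    · exact h1.le
    · exact h2.le
    · exact le_refl (0 : ℝ)
  · fin_cases i
    · change w 0 ≤ w 0 + w 1 + w 2
      linarith
    · change w 1 ≤ w 0 + w 1 + w 2
      linarith
    · change w 2 ≤ w 0 + w 1 + w 2
      linarith
    · change 0 ≤ w 0 + w 1 + w 2
      linarith

theorem sg_pos : 0 < sg w := by
  have h0 := hw.pos 0
  have h1 := hw.pos 1
  have h2 := hw.pos 2
  unfold sg
  linarith

theorem wt4_nonneg (u : Wd 4) : 0 ≤ wt (w4 w) u := by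
  have := le_sum_map (w4 w) 0 (fun i => (w4_bd hw i).1) u.toList
  unfold wt
  linarith

theorem wt4_le {M : ℕ} (u : Wd 4) (hu : u.toList.length ≤ M) : wt (w4 w) u ≤ M * sg w := by
  have h1 := sum_map_le (w4 w) (sg w) (fun i => (w4_bd hw i).2) u.toList
  unfold wt
  have h2 : (u.toList.length : ℝ) ≤ M := by exact_mod_cast hu
  have h3 := mul_le_mul_of_nonneg_right h2 (sg_pos hw).le
  linarith

variable {K : Type*} [Field K]

omit hw in
theorem cnt_coeff (m : ℕ) (f : A K 4) (u : Wd 4) (h : (cnt 3 m f).coeff u ≠ 0) :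
    f.coeff u ≠ 0 := by
  unfold cnt at h
  rw [MonoidAlgebra.coeff_ofCoeff] at h
  intro h0
  apply h
  rw [Finsupp.filter_apply]
  split_ifs
  · exact h0
  · rfl

theorem et_nonneg (G : A K 4) : 0 ≤ et w G := by
  unfold et dg
  by_cases h : cnt 3 (dt G) G = 0
  · rw [h, dgr_zero]
  · obtain ⟨u, -, hu⟩ := exists_dgr (ω := wt (w4 w)) h
    rw [hu]
    exact wt4_nonneg hw u

theorem et_le {M : ℕ} (G : A K 4) (hG : Len M G) : et w G ≤ M * sg w := by
  unfold et dg
  refine dgr_le (mul_nonneg (by positivity) (sg_pos hw).le) fun u hu => ?_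
  exact wt4_le hw u (hG u (Finsupp.mem_support_iff.2 (cnt_coeff _ _ _ hu)))

omit hw in
theorem dt_le {M : ℕ} (G : A K 4) (hG : Len M G) : dt G ≤ M :=
  Finset.sup_le fun u hu => List.count_le_length.trans (hG u hu)

omit hw in
theorem dt_ne {G : A K 4} (h : 1 ≤ dt G) : G ≠ 0 := by
  rintro rfl
  unfold dt at h
  simp at h

omit hw in
theorem dg_pos_of_lw (hw : Gen w) (hL : LwFacts K w) {m : ℕ} {θ : A K 3} {wd : Wd 3}
    (h : IsLw w θ wd) (hn : NoPer m wd) : 0 < dg w θ := by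
  rw [hL.dgw θ wd h]
  by_contra hc
  have h0 : wt w wd = 0 := le_antisymm (not_lt.1 hc) (wt_nonneg hw.pos wd)
  have h1 := wt_eq_zero hw.pos h0
  have h2 := hn.1
  rw [h1, FreeMonoid.toList_one] at h2
  simp at h2

end words

/-- degrees of `TN z θ N H` -/
theorem TN_deg {K : Type*} [Field K] {w : Fin 3 → ℝ} (z : Fin 3 → A K 3) {M N : ℕ} {θ : A K 3}
    {wd : Wd 3}
    (hN : ∀ G : A K 4, G ≠ 0 → Len M G →
      (∃ W ∈ G.coeff.support, W.toList.count 3 = dt G ∧ wt (w4 w) W = et w G ∧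
        IsLw w (sb (θ ^ N) G) (sw wd N W)) ∧
      dg w (sb (θ ^ N) G) = N * dt G * dg w θ + et w G) (H : A K 3) (hH : Len M (Th z H))
    (h0 : Th z H ≠ 0) :
    dg w (TN z θ N H) = N * dt (Th z H) * dg w θ + et w (Th z H) :=
  (hN (Th z H) h0 hH).2

/-- module PBA -/
theorem pba (K : Type*) [Field K] (w : Fin 3 → ℝ) (hw : Gen w) (hL : LwFacts K w)
    (hWL : WlStatement K w) (hF : Facts K w) : PbaStatement K w := by
  intro z _ M
  refine ⟨M + 1, M, fun θ wd hlw hper => ?_⟩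
  obtain ⟨N₁, hN₁⟩ := hWL M θ wd hlw hper
  have hq : 0 < dg w θ := dg_pos_of_lw hw hL hlw hper
  obtain ⟨N₂, hN₂⟩ := exists_nat_ge (M * sg w / dg w θ)
  refine ⟨max N₁ (max N₂ 1), fun N hN H1 H2 H3 l1 l2 l3 d1 d2 hcom P hP => ?_⟩
  have hNa : N₁ ≤ N := (le_max_left _ _).trans hN
  have hNb : N₂ ≤ N := ((le_max_left _ _).trans (le_max_right _ _)).trans hN
  have hNc : 1 ≤ N := ((le_max_right _ _).trans (le_max_right _ _)).trans hN
  have hNq : M * sg w ≤ N * dg w θ := by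
    rw [div_le_iff₀ hq] at hN₂
    refine hN₂.trans (mul_le_mul_of_nonneg_right (by exact_mod_cast hNb) hq.le)
  have hNr : (1 : ℝ) ≤ N := by exact_mod_cast hNc
  have e1 := TN_deg z (hN₁ N hNa) H1 l1 (dt_ne d1)
  have e2 := TN_deg z (hN₁ N hNa) H2 l2 (dt_ne d2)
  set h1 := TN z θ N H1 with hh1
  set h2 := TN z θ N H2 with hh2
  set h3 := TN z θ N H3 with hh3
  have p1 : N * dg w θ ≤ dg w h1 := by
    rw [e1]
    have a1 : (1 : ℝ) ≤ dt (Th z H1) := by exact_mod_cast d1
    have a2 := et_nonneg hw (Th z H1)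
    have a3 : (N : ℝ) * 1 * dg w θ ≤ N * dt (Th z H1) * dg w θ :=
      mul_le_mul_of_nonneg_right (mul_le_mul_of_nonneg_left a1 (by positivity)) hq.le
    linarith
  have p2 : N * dg w θ ≤ dg w h2 := by
    rw [e2]
    have a1 : (1 : ℝ) ≤ dt (Th z H2) := by exact_mod_cast d2
    have a2 := et_nonneg hw (Th z H2)
    have a3 : (N : ℝ) * 1 * dg w θ ≤ N * dt (Th z H2) * dg w θ :=
      mul_le_mul_of_nonneg_right (mul_le_mul_of_nonneg_left a1 (by positivity)) hq.le
    linarith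
  have hNq0 : 0 < N * dg w θ := by positivity
  have p1' : 0 < dg w h1 := lt_of_lt_of_le hNq0 p1
  have p2' : 0 < dg w h2 := lt_of_lt_of_le hNq0 p2
  have h3pos : 0 < dg w h3 := lt_of_le_of_lt (hF.d.nn _) hP
  have p3 : dg w h3 ≤ (M + 1 : ℕ) * (N * dg w θ) := by
    have h30 : Th z H3 ≠ 0 := by
      intro h0
      have : h3 = 0 := by
        rw [hh3]
        change sb (θ ^ N) (Th z H3) = 0
        rw [h0, map_zero]
      rw [this, hF.d.zero] at h3pos
      exact lt_irrefl _ h3pos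
    rw [TN_deg z (hN₁ N hNa) H3 l3 h30]
    have a1 : (dt (Th z H3) : ℝ) ≤ M := by exact_mod_cast dt_le _ l3
    have a2 := et_le hw (Th z H3) l3
    have a3 : (N : ℝ) * dt (Th z H3) * dg w θ ≤ M * (N * dg w θ) := by
      calc (N : ℝ) * dt (Th z H3) * dg w θ = dt (Th z H3) * (N * dg w θ) := by ring
        _ ≤ M * (N * dg w θ) := mul_le_mul_of_nonneg_right a1 hNq0.le
    push_cast
    linarith
  -- the degree of `P`
  set w' : Fin 2 → ℝ := ![dg w h1, dg w h2] with hw'
  have hPdeg : dg w (ev P h1 h2) = dg w h3 := by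
    have a1 : ev P h1 h2 = h3 - (h3 - ev P h1 h2) := by abel
    rw [a1]
    exact hF.d.sub_left _ _ hP
  have hPd : dg w' P = dg w h3 := by
    rw [← hPdeg]
    exact (hF.t.fr0 h1 h2 P p1' p2' hcom).symm
  refine ⟨cmp (wt w') (dg w' P) P, ?_, ?_⟩
  · intro u hu
    have hu' := Finsupp.mem_support_iff.1 hu
    rw [coeff_cmp] at hu'
    have hwu : wt w' u = dg w' P := by
      by_contra hc
      rw [if_neg hc] at hu'
      exact hu' rfl
    have a1 : (u.toList.length : ℝ) * (N * dg w θ) ≤ wt w' u := by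
      refine le_sum_map w' (N * dg w θ) (fun i => ?_) u.toList
      rw [hw']
      fin_cases i
      · exact p1
      · exact p2
    rw [hwu, hPd] at a1
    have a2 := le_of_mul_le_mul_right (a1.trans p3) hNq0
    exact_mod_cast a2
  · have a1 : dg w' (P - cmp (wt w') (dg w' P) P) < dg w' P := by
      refine sub_top_lt ?_
      change 0 < dg w' P
      rw [hPd]
      exact h3pos
    have a2 : dg w (ev (P - cmp (wt w') (dg w' P) P) h1 h2) < dg w h3 := by
      rw [hF.t.fr0 h1 h2 _ p1' p2' hcom, ← hPd]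
      exact a1
    have a3 : h3 - ev (cmp (wt w') (dg w' P) P) h1 h2 =
        (h3 - ev P h1 h2) + ev (P - cmp (wt w') (dg w' P) P) h1 h2 := by
      have a4 : ev (P - cmp (wt w') (dg w' P) P) h1 h2 =
          ev P h1 h2 - ev (cmp (wt w') (dg w' P) P) h1 h2 := map_sub _ _ _
      rw [a4]
      abel
    rw [a3]
    exact lt_of_le_of_lt (hF.d.add_le _ _) (max_lt hP a2)

end Pool.Agent.Lib.MP_e1f7e2_al.FA.H97
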